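import Pool.Agent.Lib.H40B5.B
import Pool.Agent.Lib.H47G5.Cv

/-!
# H40B5, file C: chunk (B) in the words of `H47G5.OneCyc`
-/

set_option autoImplicit false

namespace H40B5

open Finset H98M LD

variable {V : Type*} [Fintype V] [DecidableEq V]

/-- `H47G5.OneF` gives `CycOn` on the support. -/
theorem cycOn_of_oneF {E F : Finset (Sym2 V)} (hF : F ⊆ E) (h : H47G5.OneF F) :
    CycOn E F (univ.filter fun v => H85TF.dg F v = 2) := by
  refine ⟨hF, fun v hv => (mem_filter.1 hv).2, fun v hv => ?_, ?_⟩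
  · rcases h.1 v with h1 | h1
    · exact h1
    · exact absurd (mem_filter.2 ⟨mem_univ v, h1⟩) hv
  · rintro ⟨C, D, ⟨c, hc⟩, ⟨d, hd⟩, hCD, hu, hno⟩
    have hmem : ∀ v, v ∈ C ∪ D ↔ H85TF.dg F v = 2 := fun v => by
      rw [hu, mem_filter]
      exact ⟨fun h => h.2, fun h => ⟨mem_univ v, h⟩⟩
    have hend : ∀ x y : V, s(x, y) ∈ F → H85TF.dg F y = 2 := by
      intro x y hxy
      rcases h.1 y with h1 | h1
      · exfalso
        unfold H85TF.dg at h1
        rw [card_eq_zero] at h1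
        have h2 : s(x, y) ∈ F.filter fun e => y ∈ e := mem_filter.2 ⟨hxy, Sym2.mem_mk_right _ _⟩
        rw [h1] at h2
        exact notMem_empty _ h2
      · exact h1
    have h1 := h.2 C (fun a ha b hab => by
      rcases mem_union.1 ((hmem b).2 (hend a b hab)) with h2 | h2
      · exact h2
      · exact absurd hab (hno a ha b h2)) c hc (by
        rw [(hmem c).1 (mem_union_left _ hc)]; decide) d (by
        rw [(hmem d).1 (mem_union_right _ hd)]; decide)
    exact disjoint_left.1 hCD h1 hd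

/-- **(B)** -/
theorem oneCyc_cov5 {E : Finset (Sym2 V)} {Y A : Finset V} (hT : TCY E Y)
    (hno : ∀ x y P Q, ¬ Sep E Y x y P Q) (h5 : 5 ≤ Y.card) (h : H47G5.OneCyc E A) : H8F.Cov5 E A := by
  obtain ⟨F, hF, h1, hA⟩ := h
  have hc := cycOn_of_oneF hF h1
  have hS : (univ.filter fun v => H85TF.dg F v = 2) ⊆ Y := by
    intro v hv
    obtain ⟨x, y, -, hx, -⟩ := H40T.two_nb (E := F) (w := v) (mem_filter.1 hv).2
    exact hT.sub _ (hF hx) v (Sym2.mem_mk_left _ _)
  obtain ⟨F2, g1, g2, g3, g4, g5⟩ := cov5_of_cyc hT.loop hno h5 Y.card hc hS (by omega)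
  exact ⟨F2, g1, g2, g3, g4, fun v hv => g5 v (mem_filter.2 ⟨mem_univ v, hA v hv⟩)⟩

end H40B5
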