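import Pool.Agent.Lib.H40T.R2
import Pool.Agent.Lib.H40T.P1
import Pool.Agent.Lib.H8F.F5

/-!
# H40B5, file B: in a graph without 2-cuts with at least 5 vertices every cycle of length 3 or 4 can be extended to a
cycle of length at least 5 through all its vertices
-/

set_option autoImplicit false

namespace H40B5

open Finset H98M LD

variable {V : Type*} [DecidableEq V]

/-- `F` is one cycle of `E` with vertex set `S`. -/
structure CycOn (E F : Finset (Sym2 V)) (S : Finset V) : Prop where
  sub : F ⊆ E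
  two : ∀ v ∈ S, H85TF.dg F v = 2
  zero : ∀ v, v ∉ S → H85TF.dg F v = 0
  conn : ¬ Disc S F

section

variable {E F : Finset (Sym2 V)} {S : Finset V}

theorem CycOn.left (h : CycOn E F S) {x y : V} (hxy : s(x, y) ∈ F) : x ∈ S := by
  by_contra hx
  have h0 := h.zero x hx
  unfold H85TF.dg at h0
  rw [card_eq_zero] at h0
  have h1 : s(x, y) ∈ F.filter fun e => x ∈ e := mem_filter.2 ⟨hxy, Sym2.mem_mk_left _ _⟩
  rw [h0] at h1
  exact notMem_empty _ h1

theorem CycOn.right (h : CycOn E F S) {x y : V} (hxy : s(x, y) ∈ F) : y ∈ S :=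
  h.left (x := y) (y := x) (by rw [Sym2.eq_swap]; exact hxy)

/-- a closed part is everything -/
theorem CycOn.closed (h : CycOn E F S) {T : Finset V} (hT : T.Nonempty) (hTS : T ⊆ S)
    (hc : ∀ x ∈ T, ∀ y, s(x, y) ∈ F → y ∈ T) : S ⊆ T := by
  by_contra hn
  obtain ⟨v, hv, hvT⟩ := not_subset.1 hn
  refine h.conn ⟨T, S \ T, hT, ⟨v, mem_sdiff.2 ⟨hv, hvT⟩⟩, disjoint_sdiff,
    union_sdiff_of_subset hTS, ?_⟩
  intro x hx y hy hxy
  exact (mem_sdiff.1 hy).2 (hc x hx y hxy)

theorem nb_two {x a b c : V} (h : H85TF.dg F x = 2) (ha : s(x, a) ∈ F) (hb : s(x, b) ∈ F) (hab : a ≠ b)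
    (hc : s(x, c) ∈ F) : c = a ∨ c = b := by
  by_contra hn
  push Not at hn
  have h3 := H40T.three_le ha hb hc hab (Ne.symm hn.1) (Ne.symm hn.2)
  have h4 : H91P.dg F x = H85TF.dg F x := rfl
  omega

theorem CycOn.tri (h : CycOn E F S) (hE : ∀ e ∈ E, ¬ e.IsDiag) (h5 : 5 ≤ S.card) (x y z : V)
    (h1 : s(x, y) ∈ F) (h2 : s(y, z) ∈ F) : s(x, z) ∉ F := by
  intro h3
  have ne : ∀ {a b : V}, s(a, b) ∈ F → a ≠ b := fun hab e => hE _ (h.sub hab) (by
    rw [Sym2.mk_isDiag_iff]; exact e)
  have hsub : S ⊆ {x, y, z} := by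
    refine h.closed ⟨x, by simp⟩ ?_ ?_
    · intro v hv
      simp only [mem_insert, mem_singleton] at hv
      rcases hv with rfl | rfl | rfl
      · exact h.left h1
      · exact h.right h1
      · exact h.right h2
    · intro v hv w hw
      simp only [mem_insert, mem_singleton] at hv ⊢
      rcases hv with rfl | rfl | rfl
      · rcases nb_two (h.two _ (h.left h1)) h1 h3 (ne h2) hw with rfl | rfl
        · exact Or.inr (Or.inl rfl)
        · exact Or.inr (Or.inr rfl)
      · rcases nb_two (h.two _ (h.right h1)) (by rw [Sym2.eq_swap]; exact h1) h2 (ne h3) hw with rfl | rfl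
        · exact Or.inl rfl
        · exact Or.inr (Or.inr rfl)
      · rcases nb_two (h.two _ (h.right h2)) (by rw [Sym2.eq_swap]; exact h3) (by rw [Sym2.eq_swap]; exact h2)
          (ne h1) hw with rfl | rfl
        · exact Or.inl rfl
        · exact Or.inr (Or.inl rfl)
  have := card_le_card hsub
  have := card_le_three (a := x) (b := y) (c := z)
  omega

theorem CycOn.quad (h : CycOn E F S) (h5 : 5 ≤ S.card) (x y z w : V)
    (hxz : x ≠ z) (hyw : y ≠ w) (h1 : s(x, y) ∈ F) (h2 : s(y, z) ∈ F) (h3 : s(z, w) ∈ F) : s(w, x) ∉ F := by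
  intro h4
  have sw : ∀ {a b : V}, s(a, b) ∈ F → s(b, a) ∈ F := fun hab => by rw [Sym2.eq_swap]; exact hab
  have hsub : S ⊆ {x, y, z, w} := by
    refine h.closed ⟨x, by simp⟩ ?_ ?_
    · intro v hv
      simp only [mem_insert, mem_singleton] at hv
      rcases hv with rfl | rfl | rfl | rfl
      · exact h.left h1
      · exact h.right h1
      · exact h.right h2
      · exact h.right h3
    · intro v hv u hu
      simp only [mem_insert, mem_singleton] at hv ⊢
      rcases hv with rfl | rfl | rfl | rfl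
      · rcases nb_two (h.two _ (h.left h1)) h1 (sw h4) hyw hu with rfl | rfl
        · exact Or.inr (Or.inl rfl)
        · exact Or.inr (Or.inr (Or.inr rfl))
      · rcases nb_two (h.two _ (h.right h1)) (sw h1) h2 hxz hu with rfl | rfl
        · exact Or.inl rfl
        · exact Or.inr (Or.inr (Or.inl rfl))
      · rcases nb_two (h.two _ (h.right h2)) (sw h2) h3 hyw hu with rfl | rfl
        · exact Or.inr (Or.inl rfl)
        · exact Or.inr (Or.inr (Or.inr rfl))
      · rcases nb_two (h.two _ (h.right h3)) (sw h3) h4 (Ne.symm hxz) hu with rfl | rfl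
        · exact Or.inr (Or.inr (Or.inl rfl))
        · exact Or.inl rfl
  have := card_le_card hsub
  have := card_le_four (a := x) (b := y) (c := z) (d := w)
  omega

/-- a cycle of length at least 5 -/
theorem CycOn.cov5 (h : CycOn E F S) (hE : ∀ e ∈ E, ¬ e.IsDiag) (h5 : 5 ≤ S.card) : H8F.Cov5 E S := by
  refine ⟨F, h.sub, fun v => ?_, h.tri hE h5, h.quad h5, h.two⟩
  by_cases hv : v ∈ S
  · exact Or.inr (h.two v hv)
  · exact Or.inl (h.zero v hv)

theorem CycOn.three (h : CycOn E F S) (hE : ∀ e ∈ E, ¬ e.IsDiag) (hS : S.Nonempty) : 3 ≤ S.card := by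
  obtain ⟨v, hv⟩ := hS
  obtain ⟨x, y, hxy, hx, hy⟩ := H40T.two_nb (E := F) (w := v) (h.two v hv)
  have ne : ∀ {a b : V}, s(a, b) ∈ F → a ≠ b := fun hab e => hE _ (h.sub hab) (by
    rw [Sym2.mk_isDiag_iff]; exact e)
  have hsub : ({v, x, y} : Finset V) ⊆ S := by
    intro w hw
    simp only [mem_insert, mem_singleton] at hw
    rcases hw with rfl | rfl | rfl
    · exact hv
    · exact h.right hx
    · exact h.right hy
  have h1 := card_le_card hsub
  rw [card_insert_of_notMem, card_insert_of_notMem, card_singleton] at h1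
  · exact h1
  · rw [mem_singleton]; exact hxy
  · simp only [mem_insert, mem_singleton, not_or]
    exact ⟨ne hx, ne hy⟩

end

/-- a connected part of `Y - S` -/
theorem exists_comp {E : Finset (Sym2 V)} {R : Finset V} (hR : R.Nonempty) :
    ∃ K ⊆ R, K.Nonempty ∧ (∀ a ∈ K, ∀ b ∈ R, b ∉ K → s(a, b) ∉ E) ∧ ¬ Disc K E := by
  classical
  obtain ⟨K, hK, hmin⟩ := exists_min_image (R.powerset.filter fun K => K.Nonempty ∧
    ∀ a ∈ K, ∀ b ∈ R, b ∉ K → s(a, b) ∉ E) card
    ⟨R, mem_filter.2 ⟨mem_powerset_self R, hR, fun a _ b hb hb' => absurd hb hb'⟩⟩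
  obtain ⟨hKR, hK0, hKc⟩ := mem_filter.1 hK
  rw [mem_powerset] at hKR
  refine ⟨K, hKR, hK0, hKc, ?_⟩
  rintro ⟨C, D, hC, hD, hCD, hu, hno⟩
  have hCK : C ⊆ K := by rw [← hu]; exact subset_union_left
  have h1 := hmin C (mem_filter.2 ⟨mem_powerset.2 (hCK.trans hKR), hC, ?_⟩)
  · have h2 : C.card < K.card := by
      refine card_lt_card (Finset.ssubset_iff_subset_ne.2 ⟨hCK, fun e => ?_⟩)
      obtain ⟨d, hd⟩ := hD
      have hdK : d ∈ K := by rw [← hu]; exact mem_union_right _ hd
      exact disjoint_left.1 hCD (by rw [e]; exact hdK) hd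
    omega
  · intro a ha b hb hbC hab
    by_cases hbK : b ∈ K
    · rw [← hu] at hbK
      rcases mem_union.1 hbK with h | h
      · exact hbC h
      · exact hno a ha b h hab
    · exact hKc a (hCK ha) b hb hbK hab

variable {E : Finset (Sym2 V)} {Y : Finset V}

/-- the attachments of a component of `Y - S` -/
theorem three_att (hns : ∀ x y P Q, ¬ Sep E Y x y P Q) {S K : Finset V} (hS : S ⊆ Y)
    (h3 : 3 ≤ S.card) (hK : K ⊆ Y \ S) (hK0 : K.Nonempty)
    (hKc : ∀ a ∈ K, ∀ b ∈ Y \ S, b ∉ K → s(a, b) ∉ E) :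
    3 ≤ (S.filter fun a => ∃ k ∈ K, s(a, k) ∈ E).card := by
  classical
  by_contra hlt
  push Not at hlt
  obtain ⟨N, hN⟩ : ∃ N, N = S.filter fun a => ∃ k ∈ K, s(a, k) ∈ E := ⟨_, rfl⟩
  rw [← hN] at hlt
  have hNS : N ⊆ S := by rw [hN]; exact filter_subset _ _
  obtain ⟨M, hNM, hMS, hM⟩ := exists_subsuperset_card_eq hNS (n := 2) (by omega) (by omega)
  obtain ⟨x, y, hxy, rfl⟩ := card_eq_two.1 hM
  have hxS : x ∈ S := hMS (by simp)
  have hyS : y ∈ S := hMS (by simp)
  have hKS : ∀ a ∈ K, a ∈ Y ∧ a ∉ S := fun a ha => mem_sdiff.1 (hK ha)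
  refine hns x y K ((Y \ K).erase x |>.erase y) ⟨hxy, fun h => (hKS x h).2 hxS, by simp, fun h => (hKS y h).2 hyS,
    by simp, hK0, ?_, ?_, ?_, ?_⟩
  · have h1 : 0 < (S \ {x, y}).card := by
      have := card_sdiff_add_card_eq_card hMS
      omega
    obtain ⟨v, hv⟩ := card_pos.1 h1
    rw [mem_sdiff, mem_insert, mem_singleton, not_or] at hv
    refine ⟨v, mem_erase.2 ⟨hv.2.2, mem_erase.2 ⟨hv.2.1, mem_sdiff.2 ⟨hS hv.1, fun h => (hKS v h).2 hv.1⟩⟩⟩⟩
  · rw [disjoint_left]
    intro a ha hb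
    exact (mem_sdiff.1 (mem_of_mem_erase (mem_of_mem_erase hb))).2 ha
  · ext v
    simp only [mem_insert, mem_union, mem_erase, mem_sdiff]
    constructor
    · rintro (rfl | rfl | h | h)
      · exact hS hxS
      · exact hS hyS
      · exact (hKS v h).1
      · exact h.2.2.1
    · intro hv
      by_cases h1 : v = x
      · exact Or.inl h1
      by_cases h2 : v = y
      · exact Or.inr (Or.inl h2)
      by_cases h3 : v ∈ K
      · exact Or.inr (Or.inr (Or.inl h3))
      · exact Or.inr (Or.inr (Or.inr ⟨h2, h1, hv, h3⟩))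
  · intro a ha b hb hab
    rw [mem_erase, mem_erase, mem_sdiff] at hb
    by_cases hbS : b ∈ S
    · have h1 : b ∈ N := by
        rw [hN]
        exact mem_filter.2 ⟨hbS, a, ha, by rw [Sym2.eq_swap]; exact hab⟩
      have h2 := hNM h1
      rw [mem_insert, mem_singleton] at h2
      rcases h2 with h2 | h2
      · exact hb.2.1 h2
      · exact hb.1 h2
    · exact hKc a ha b (mem_sdiff.2 ⟨hb.2.2.1, hbS⟩) hb.2.2.2 hab

/-- two consecutive vertices of a short cycle among three vertices of it -/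
theorem CycOn.consec {F : Finset (Sym2 V)} {S N : Finset V} (h : CycOn E F S) (h4 : S.card ≤ 4)
    (hN : N ⊆ S) (h3 : 3 ≤ N.card) : ∃ a ∈ N, ∃ b ∈ N, s(a, b) ∈ F := by
  obtain ⟨a, ha⟩ := card_pos.1 (by omega : 0 < N.card)
  obtain ⟨x, y, hxy, hx, hy⟩ := H40T.two_nb (E := F) (w := a) (h.two a (hN ha))
  by_contra hn
  push Not at hn
  have hx' : x ∉ N := fun h1 => hn a ha x h1 hx
  have hy' : y ∉ N := fun h1 => hn a ha y h1 hy
  have h1 : insert x (insert y N) ⊆ S := by
    intro v hv
    rw [mem_insert, mem_insert] at hv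
    rcases hv with rfl | rfl | hv
    · exact h.right hx
    · exact h.right hy
    · exact hN hv
  have h2 := card_le_card h1
  rw [card_insert_of_notMem (by rw [mem_insert, not_or]; exact ⟨hxy, hx'⟩), card_insert_of_notMem hy'] at h2
  omega

/-- replacing an edge of a cycle by a path -/
theorem CycOn.repl {F : Finset (Sym2 V)} {S : Finset V} (h : CycOn E F S) (hE : ∀ e ∈ E, ¬ e.IsDiag)
    {a b : V} (hab : s(a, b) ∈ F) (r : (SimpleGraph.fromEdgeSet (E : Set (Sym2 V))).Walk b a) (hr : r.IsPath)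
    (hrS : ∀ v ∈ r.support, v ∈ S → v = a ∨ v = b) {k : V} (hk : k ∈ r.support) (hkS : k ∉ S) :
    CycOn E (F.erase s(a, b) ∪ r.edges.toFinset) (S ∪ r.support.toFinset) := by
  have haS := h.left hab
  have hbS := h.right hab
  have hba : b ≠ a := fun e => hE _ (h.sub hab) (by rw [Sym2.mk_isDiag_iff]; exact e.symm)
  obtain ⟨d1, d2, d3, d4⟩ := H40T.path_dg r hr hba
  have hnot : s(a, b) ∉ r.edges := by
    intro h1
    have h2 := H40T.path_edge r hr (by rw [Sym2.eq_swap]; exact h1) k hk
    rcases h2 with h2 | h2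
    · exact hkS (h2 ▸ hbS)
    · exact hkS (h2 ▸ haS)
  have hdis : ∀ e ∈ F.erase s(a, b), e ∉ r.edges.toFinset := by
    intro e he he'
    rw [List.mem_toFinset] at he'
    have heF := mem_of_mem_erase he
    induction e with
    | _ x y =>
      have hxy : x ≠ y := fun e => hE _ (h.sub heF) (by rw [Sym2.mk_isDiag_iff]; exact e)
      rcases hrS x (r.fst_mem_support_of_mem_edges he') (h.left heF) with hx | hx <;>
      rcases hrS y (r.snd_mem_support_of_mem_edges he') (h.right heF) with hy | hy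
      · exact hxy (hx.trans hy.symm)
      · rw [hx, hy] at he'
        exact hnot he'
      · rw [hx, hy, Sym2.eq_swap] at he'
        exact hnot he'
      · exact hxy (hx.trans hy.symm)
  have hdg : ∀ v, H85TF.dg (F.erase s(a, b) ∪ r.edges.toFinset) v =
      H85TF.dg (F.erase s(a, b)) v + H85TF.dg r.edges.toFinset v := fun v => H40T.dg_union hdis v
  have he1 : ∀ v, v = a ∨ v = b → H85TF.dg (F.erase s(a, b)) v + 1 = H85TF.dg F v := by
    intro v hv
    unfold H85TF.dg
    rw [filter_erase, card_erase_add_one]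
    refine mem_filter.2 ⟨hab, ?_⟩
    rw [Sym2.mem_iff]
    exact hv
  have he2 : ∀ v, v ≠ a → v ≠ b → H85TF.dg (F.erase s(a, b)) v = H85TF.dg F v := by
    intro v h1 h2
    unfold H85TF.dg
    rw [filter_erase, erase_eq_of_notMem]
    intro h3
    have h4 := (mem_filter.1 h3).2
    rw [Sym2.mem_iff] at h4
    rcases h4 with h4 | h4
    · exact h1 h4
    · exact h2 h4
  have dd : ∀ v, H85TF.dg r.edges.toFinset v = H91P.dg r.edges.toFinset v := fun v => rfl
  refine ⟨?_, ?_, ?_, ?_⟩
  · refine union_subset ((erase_subset _ _).trans h.sub) ?_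
    intro e he
    rw [List.mem_toFinset] at he
    have h1 := r.edges_subset_edgeSet he
    rw [SimpleGraph.edgeSet_fromEdgeSet] at h1
    exact h1.1
  · intro v hv
    rw [hdg, dd]
    by_cases hva : v = a
    · have := he1 v (Or.inl hva)
      have := h.two v (hva ▸ haS)
      rw [hva] at *
      omega
    by_cases hvb : v = b
    · have := he1 v (Or.inr hvb)
      have := h.two v (hvb ▸ hbS)
      rw [hvb] at *
      omega
    rw [he2 v hva hvb]
    by_cases hvS : v ∈ S
    · rw [h.two v hvS, d4 v]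
      intro h1
      rcases hrS v h1 hvS with h2 | h2
      · exact hva h2
      · exact hvb h2
    · rw [mem_union, List.mem_toFinset] at hv
      rw [h.zero v hvS, d3 v (hv.resolve_left hvS) hvb hva]
  · intro v hv
    rw [mem_union, not_or, List.mem_toFinset] at hv
    have hva : v ≠ a := fun e => hv.1 (e ▸ haS)
    have hvb : v ≠ b := fun e => hv.1 (e ▸ hbS)
    rw [hdg, dd, he2 v hva hvb, h.zero v hv.1, d4 v hv.2]
  · rintro ⟨C, D, hC, hD, hCD, hu, hno⟩
    -- the part with the path
    have main : ∀ C D : Finset V, C.Nonempty → D.Nonempty → Disjoint C D → C ∪ D = S ∪ r.support.toFinset →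
        (∀ x ∈ C, ∀ y ∈ D, s(x, y) ∉ F.erase s(a, b) ∪ r.edges.toFinset) → b ∈ C → False := by
      intro C D hC hD hCD hu hno hb
      have hst := H40T.walk_stay (C := F.erase s(a, b) ∪ r.edges.toFinset) (A := C) (B := D) hno r
        (fun e he => mem_union_right _ (List.mem_toFinset.2 he))
        (fun v hv => by
          have h1 : v ∈ C ∪ D := by
            rw [hu]
            exact mem_union_right _ (List.mem_toFinset.2 hv)
          exact mem_union.1 h1) hb
      have hDS : D ⊆ S := by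
        intro v hv
        have h1 : v ∈ S ∪ r.support.toFinset := by rw [← hu]; exact mem_union_right _ hv
        rcases mem_union.1 h1 with h1 | h1
        · exact h1
        · exact absurd hv (disjoint_left.1 hCD (hst v (List.mem_toFinset.1 h1)))
      refine h.conn ⟨C ∩ S, D, ⟨b, mem_inter.2 ⟨hb, hbS⟩⟩, hD, hCD.mono_left inter_subset_left, ?_, ?_⟩
      · ext v
        rw [mem_union, mem_inter]
        constructor
        · rintro (h1 | h1)
          · exact h1.2
          · exact hDS h1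
        · intro h1
          have h2 : v ∈ C ∪ D := by rw [hu]; exact mem_union_left _ h1
          rcases mem_union.1 h2 with h2 | h2
          · exact Or.inl ⟨h2, h1⟩
          · exact Or.inr h2
      · intro x hx y hy hxy
        by_cases he : s(x, y) = s(a, b)
        · rcases Sym2.eq_iff.1 he with ⟨-, h2⟩ | ⟨-, h2⟩
          · exact disjoint_left.1 hCD (by rw [h2]; exact hb) hy
          · exact disjoint_left.1 hCD (by rw [h2]; exact hst a r.end_mem_support) hy
        · exact hno x (mem_inter.1 hx).1 y hy (mem_union_left _ (mem_erase.2 ⟨he, hxy⟩))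
    have hbCD : b ∈ C ∪ D := by rw [hu]; exact mem_union_left _ hbS
    rcases mem_union.1 hbCD with hb | hb
    · exact main C D hC hD hCD hu hno hb
    · exact main D C hD hC hCD.symm (by rw [union_comm]; exact hu)
        (fun x hx y hy h1 => hno y hy x hx (by
          have e : s(y, x) = s(x, y) := Sym2.eq_swap
          rw [e]
          exact h1)) hb

/-- one extension -/
theorem CycOn.extend {F : Finset (Sym2 V)} {S : Finset V} (h : CycOn E F S) (hE : ∀ e ∈ E, ¬ e.IsDiag)
    (hns : ∀ x y P Q, ¬ Sep E Y x y P Q) (hS : S ⊆ Y) (h3 : 3 ≤ S.card) (h4 : S.card ≤ 4)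
    (hlt : S.card < Y.card) : ∃ F' S', CycOn E F' S' ∧ S ⊆ S' ∧ S' ⊆ Y ∧ S.card < S'.card := by
  classical
  have hR : (Y \ S).Nonempty := by
    rw [sdiff_nonempty]
    intro h1
    have := card_le_card h1
    omega
  obtain ⟨K, hK, hK0, hKc, hKd⟩ := exists_comp (E := E) hR
  have hatt := three_att hns hS h3 hK hK0 hKc
  obtain ⟨a, ha, b, hb, hab⟩ := h.consec h4 (filter_subset _ _) hatt
  obtain ⟨haS, k1, hk1, hak⟩ := mem_filter.1 ha
  obtain ⟨hbS, k2, hk2, hbk⟩ := mem_filter.1 hb
  obtain ⟨p, hp, hpK⟩ := H85TF.path_of_not_disc hKd hk1 hk2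
  have hKS : ∀ v ∈ K, v ∈ Y ∧ v ∉ S := fun v hv => mem_sdiff.1 (hK hv)
  have adj : ∀ {x y : V}, s(x, y) ∈ E → (SimpleGraph.fromEdgeSet (E : Set (Sym2 V))).Adj x y := by
    intro x y hxy
    rw [SimpleGraph.fromEdgeSet_adj]
    exact ⟨hxy, fun e => hE _ hxy (by rw [Sym2.mk_isDiag_iff]; exact e)⟩
  have hba : b ≠ a := fun e => hE _ (h.sub hab) (by rw [Sym2.mk_isDiag_iff]; exact e.symm)
  -- path from a to k2
  have hq : (SimpleGraph.Walk.cons (adj hak) p).IsPath := by
    rw [SimpleGraph.Walk.cons_isPath_iff]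
    exact ⟨hp, fun h1 => (hKS a (hpK a h1)).2 haS⟩
  have hq' := hq.reverse
  have hr : (SimpleGraph.Walk.cons (adj hbk) (SimpleGraph.Walk.cons (adj hak) p).reverse).IsPath := by
    rw [SimpleGraph.Walk.cons_isPath_iff]
    refine ⟨hq', ?_⟩
    rw [SimpleGraph.Walk.support_reverse, List.mem_reverse, SimpleGraph.Walk.support_cons, List.mem_cons]
    rintro (h1 | h1)
    · exact hba h1
    · exact (hKS b (hpK b h1)).2 hbS
  have hsup : ∀ v ∈ (SimpleGraph.Walk.cons (adj hbk) (SimpleGraph.Walk.cons (adj hak) p).reverse).support,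
      v = b ∨ v = a ∨ v ∈ K := by
    intro v hv
    rw [SimpleGraph.Walk.support_cons, List.mem_cons, SimpleGraph.Walk.support_reverse, List.mem_reverse,
      SimpleGraph.Walk.support_cons, List.mem_cons] at hv
    rcases hv with h1 | h1 | h1
    · exact Or.inl h1
    · exact Or.inr (Or.inl h1)
    · exact Or.inr (Or.inr (hpK v h1))
  have hk2s : k2 ∈ (SimpleGraph.Walk.cons (adj hbk) (SimpleGraph.Walk.cons (adj hak) p).reverse).support := by
    rw [SimpleGraph.Walk.support_cons, List.mem_cons]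
    exact Or.inr (SimpleGraph.Walk.start_mem_support _)
  have hc := h.repl hE hab _ hr (fun v hv hvS => by
    rcases hsup v hv with h1 | h1 | h1
    · exact Or.inr h1
    · exact Or.inl h1
    · exact absurd hvS (hKS v h1).2) hk2s (hKS k2 hk2).2
  refine ⟨_, _, hc, subset_union_left, ?_, ?_⟩
  · refine union_subset hS fun v hv => ?_
    rcases hsup v (List.mem_toFinset.1 hv) with h1 | h1 | h1
    · exact hS (h1 ▸ hbS)
    · exact hS (h1 ▸ haS)
    · exact (hKS v h1).1
  · refine card_lt_card (Finset.ssubset_iff_subset_ne.2 ⟨subset_union_left, fun e => ?_⟩)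
    have h1 : k2 ∈ S := by
      rw [e]
      exact mem_union_right _ (List.mem_toFinset.2 hk2s)
    exact (hKS k2 hk2).2 h1

/-- **(B)**: in a graph without 2-cuts with at least 5 vertices a set on one cycle is covered by cycles of length at
least 5. -/
theorem cov5_of_cyc (hE : ∀ e ∈ E, ¬ e.IsDiag) (hns : ∀ x y P Q, ¬ Sep E Y x y P Q) (h5 : 5 ≤ Y.card) :
    ∀ (m : ℕ) {F : Finset (Sym2 V)} {S : Finset V}, CycOn E F S → S ⊆ Y → Y.card ≤ S.card + m → H8F.Cov5 E S := by
  intro m
  induction m with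
  | zero =>
    intro F S h hS hm
    exact h.cov5 hE (by omega)
  | succ m ih =>
    intro F S h hS hm
    by_cases h0 : S.Nonempty
    · have h3 := h.three hE h0
      by_cases h4 : S.card ≤ 4
      · obtain ⟨F', S', h1, h2, h3', h4'⟩ := h.extend hE hns hS h3 h4 (by omega)
        obtain ⟨F2, g1, g2, g3, g4, g5⟩ := ih h1 h3' (by omega)
        exact ⟨F2, g1, g2, g3, g4, fun v hv => g5 v (h2 hv)⟩
      · exact h.cov5 hE (by omega)
    · rw [not_nonempty_iff_eq_empty] at h0
      subst h0
      exact ⟨∅, empty_subset _, fun v => Or.inl (by simp [H85TF.dg]),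
        fun _ _ _ h => absurd h (notMem_empty _), fun _ _ _ _ _ _ h => absurd h (notMem_empty _),
        fun v hv => absurd hv (notMem_empty v)⟩

end H40B5
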