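import Pool.Agent.Lib.H47G5.Cv

/-!
# H40B5, file E: a 2-connected graph in which all degrees are 2 is one cycle
-/

set_option autoImplicit false

namespace H40B5

open Finset H98M LD

variable {V : Type*} [Fintype V] [DecidableEq V]

/-- **(E)** -/
theorem oneCyc_all {E : Finset (Sym2 V)} {Y : Finset V} (hT : TCY E Y)
    (h2 : ∀ v ∈ Y, H85TF.dg E v = 2) : H47G5.OneCyc E Y := by
  have h0 : ∀ v, v ∉ Y → H85TF.dg E v = 0 := by
    intro v hv
    unfold H85TF.dg
    rw [card_eq_zero, filter_eq_empty_iff]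
    exact fun e he hve => hv (hT.sub e he v hve)
  have hY : ∀ v, H85TF.dg E v ≠ 0 → v ∈ Y := fun v hv => by
    by_contra h
    exact hv (h0 v h)
  refine ⟨E, Subset.rfl, ⟨fun v => ?_, ?_⟩, h2⟩
  · by_cases hv : v ∈ Y
    · exact Or.inr (h2 v hv)
    · exact Or.inl (h0 v hv)
  · intro T hc x hxT hx y hy
    by_contra hyT
    refine hT.conn ⟨T ∩ Y, Y \ T, ⟨x, mem_inter.2 ⟨hxT, hY x hx⟩⟩, ⟨y, mem_sdiff.2 ⟨hY y hy, hyT⟩⟩, ?_, ?_, ?_⟩
    · rw [disjoint_left]
      intro a ha hb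
      exact (mem_sdiff.1 hb).2 (mem_inter.1 ha).1
    · ext a
      rw [mem_union, mem_inter, mem_sdiff]
      tauto
    · intro a ha b hb hab
      exact (mem_sdiff.1 hb).2 (hc a (mem_inter.1 ha).1 b hab)

end H40B5
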