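import Pool.Agent.Lib.H40B5.C

/-!
# H40B5, file X: the core of the exchange property of the covering predicate `H47G5.Cv` in 2-connected graphs
-/

set_option autoImplicit false

namespace H40B5

open Finset H98M LD

section

variable {V : Type*} [DecidableEq V] {E : Finset (Sym2 V)}

/-- a cycle from two paths -/
theorem cyc_two {a b : V} (hab : a ≠ b) (p : (SimpleGraph.fromEdgeSet (E : Set (Sym2 V))).Walk a b) (hp : p.IsPath)
    (q : (SimpleGraph.fromEdgeSet (E : Set (Sym2 V))).Walk a b) (hq : q.IsPath)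
    (hpq : ∀ v ∈ p.support, v ∈ q.support → v = a ∨ v = b) {k : V} (hk : k ∈ p.support) (hka : k ≠ a)
    (hkb : k ≠ b) :
    CycOn E (p.edges.toFinset ∪ q.edges.toFinset) (p.support.toFinset ∪ q.support.toFinset) := by
  obtain ⟨d1, d2, d3, d4⟩ := H40T.path_dg p hp hab
  obtain ⟨e1, e2, e3, e4⟩ := H40T.path_dg q hq hab
  have hnot : s(a, b) ∉ p.edges := by
    intro h1
    rcases H40T.path_edge p hp h1 k hk with h2 | h2
    · exact hka h2
    · exact hkb h2
  have hdis : ∀ e ∈ p.edges.toFinset, e ∉ q.edges.toFinset := by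
    intro e he he'
    rw [List.mem_toFinset] at he he'
    induction e with
    | _ x y =>
      have hxy : x ≠ y := (p.adj_of_mem_edges he).ne
      rcases hpq x (p.fst_mem_support_of_mem_edges he) (q.fst_mem_support_of_mem_edges he') with hx | hx <;>
      rcases hpq y (p.snd_mem_support_of_mem_edges he) (q.snd_mem_support_of_mem_edges he') with hy | hy
      · exact hxy (hx.trans hy.symm)
      · rw [hx, hy] at he
        exact hnot he
      · rw [hx, hy, Sym2.eq_swap] at he
        exact hnot he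
      · exact hxy (hx.trans hy.symm)
  have hdg : ∀ v, H85TF.dg (p.edges.toFinset ∪ q.edges.toFinset) v =
      H91P.dg p.edges.toFinset v + H91P.dg q.edges.toFinset v := fun v => H40T.dg_union hdis v
  refine ⟨?_, ?_, ?_, ?_⟩
  · refine union_subset ?_ ?_
    · intro e he
      rw [List.mem_toFinset] at he
      have h1 := p.edges_subset_edgeSet he
      rw [SimpleGraph.edgeSet_fromEdgeSet] at h1
      exact h1.1
    · intro e he
      rw [List.mem_toFinset] at he
      have h1 := q.edges_subset_edgeSet he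
      rw [SimpleGraph.edgeSet_fromEdgeSet] at h1
      exact h1.1
  · intro v hv
    rw [hdg]
    by_cases hva : v = a
    · rw [hva, d1, e1]
    by_cases hvb : v = b
    · rw [hvb, d2, e2]
    rw [mem_union, List.mem_toFinset, List.mem_toFinset] at hv
    rcases hv with hv | hv
    · rw [d3 v hv hva hvb, e4 v (fun h => by
        rcases hpq v hv h with h | h
        · exact hva h
        · exact hvb h)]
    · rw [e3 v hv hva hvb, d4 v (fun h => by
        rcases hpq v h hv with h | h
        · exact hva h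
        · exact hvb h)]
  · intro v hv
    rw [mem_union, not_or, List.mem_toFinset, List.mem_toFinset] at hv
    rw [hdg, d4 v hv.1, e4 v hv.2]
  · rintro ⟨C, D, hC, hD, hCD, hu, hno⟩
    have main : ∀ C D : Finset V, D.Nonempty → Disjoint C D →
        C ∪ D = p.support.toFinset ∪ q.support.toFinset →
        (∀ x ∈ C, ∀ y ∈ D, s(x, y) ∉ p.edges.toFinset ∪ q.edges.toFinset) → a ∈ C → False := by
      intro C D hD hCD hu hno ha
      have h1 := H40T.walk_stay (C := p.edges.toFinset ∪ q.edges.toFinset) (A := C) (B := D) hno p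
        (fun e he => mem_union_left _ (List.mem_toFinset.2 he))
        (fun v hv => by
          have h1 : v ∈ C ∪ D := by
            rw [hu]
            exact mem_union_left _ (List.mem_toFinset.2 hv)
          exact mem_union.1 h1) ha
      have h2 := H40T.walk_stay (C := p.edges.toFinset ∪ q.edges.toFinset) (A := C) (B := D) hno q
        (fun e he => mem_union_right _ (List.mem_toFinset.2 he))
        (fun v hv => by
          have h1 : v ∈ C ∪ D := by
            rw [hu]
            exact mem_union_right _ (List.mem_toFinset.2 hv)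
          exact mem_union.1 h1) ha
      obtain ⟨z, hz⟩ := hD
      have h3 : z ∈ p.support.toFinset ∪ q.support.toFinset := by rw [← hu]; exact mem_union_right _ hz
      rw [mem_union, List.mem_toFinset, List.mem_toFinset] at h3
      rcases h3 with h3 | h3
      · exact disjoint_left.1 hCD (h1 z h3) hz
      · exact disjoint_left.1 hCD (h2 z h3) hz
    have haCD : a ∈ C ∪ D := by
      rw [hu]
      exact mem_union_left _ (List.mem_toFinset.2 p.start_mem_support)
    rcases mem_union.1 haCD with ha | ha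
    · exact main C D hD hCD hu hno ha
    · exact main D C hC hCD.symm (by rw [union_comm]; exact hu)
        (fun x hx y hy h1 => hno y hy x hx (by
          have e : s(y, x) = s(x, y) := Sym2.eq_swap
          rw [e]
          exact h1)) ha

/-- the connected part of `R` with a given vertex -/
theorem exists_comp_of {R : Finset V} {u : V} (hu : u ∈ R) :
    ∃ K ⊆ R, u ∈ K ∧ (∀ a ∈ K, ∀ b ∈ R, b ∉ K → s(a, b) ∉ E) ∧ ¬ Disc K E := by
  classical
  obtain ⟨K, hK, hmin⟩ := exists_min_image (R.powerset.filter fun K => u ∈ K ∧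
    ∀ a ∈ K, ∀ b ∈ R, b ∉ K → s(a, b) ∉ E) card
    ⟨R, mem_filter.2 ⟨mem_powerset_self R, hu, fun a _ b hb hb' => absurd hb hb'⟩⟩
  obtain ⟨hKR, hK0, hKc⟩ := mem_filter.1 hK
  rw [mem_powerset] at hKR
  refine ⟨K, hKR, hK0, hKc, ?_⟩
  rintro ⟨C, D, hC, hD, hCD, hu', hno⟩
  have main : ∀ C D : Finset V, D.Nonempty → Disjoint C D → C ∪ D = K → (∀ x ∈ C, ∀ y ∈ D, s(x, y) ∉ E) →
      u ∈ C → False := by
    intro C D hD hCD hu' hno hC
    have hCK : C ⊆ K := by rw [← hu']; exact subset_union_left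
    have h1 := hmin C (mem_filter.2 ⟨mem_powerset.2 (hCK.trans hKR), hC, ?_⟩)
    · have h2 : C.card < K.card := by
        refine card_lt_card (Finset.ssubset_iff_subset_ne.2 ⟨hCK, fun e => ?_⟩)
        obtain ⟨d, hd⟩ := hD
        have hdK : d ∈ K := by rw [← hu']; exact mem_union_right _ hd
        exact disjoint_left.1 hCD (by rw [e]; exact hdK) hd
      omega
    · intro a ha b hb hbC hab
      by_cases hbK : b ∈ K
      · rw [← hu'] at hbK
        rcases mem_union.1 hbK with h | h
        · exact hbC h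
        · exact hno a ha b h hab
      · exact hKc a (hCK ha) b hb hbK hab
  have huCD : u ∈ C ∪ D := by rw [hu']; exact hK0
  rcases mem_union.1 huCD with h | h
  · exact main C D hD hCD hu' hno h
  · exact main D C hC hCD.symm (by rw [union_comm]; exact hu')
      (fun x hx y hy h1 => hno y hy x hx (by
        have e : s(y, x) = s(x, y) := Sym2.eq_swap
        rw [e]
        exact h1)) h

/-- a second attachment -/
theorem att_two {Y S K : Finset V} (hT : TCY E Y) (hS : S ⊆ Y) {b c0 : V} (hc0 : c0 ∈ S) (hne : c0 ≠ b)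
    (hb : b ∈ S) (hK : K ⊆ Y \ S) (hK0 : K.Nonempty) (hKc : ∀ a ∈ K, ∀ b ∈ Y \ S, b ∉ K → s(a, b) ∉ E) :
    ∃ c ∈ S, c ≠ b ∧ ∃ k ∈ K, s(k, c) ∈ E := by
  by_contra hn
  push Not at hn
  have hKS : ∀ a ∈ K, a ∈ Y ∧ a ∉ S := fun a ha => mem_sdiff.1 (hK ha)
  refine hT.conn' b (hS hb) ⟨K, (Y.erase b) \ K, hK0, ⟨c0, mem_sdiff.2 ⟨mem_erase.2 ⟨hne, hS hc0⟩,
    fun h => (hKS c0 h).2 hc0⟩⟩, disjoint_sdiff, union_sdiff_of_subset ?_, ?_⟩
  · intro v hv
    exact mem_erase.2 ⟨fun e => (hKS v hv).2 (e ▸ hb), (hKS v hv).1⟩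
  · intro x hx y hy hxy
    obtain ⟨h1, h2⟩ := mem_sdiff.1 hy
    obtain ⟨h3, h4⟩ := mem_erase.1 h1
    by_cases hyS : y ∈ S
    · exact hn y hyS h3 x hx hxy
    · exact hKc x hx y (mem_sdiff.2 ⟨h4, hyS⟩) h2 hxy

theorem adjE {x y : V} (hE : ∀ e ∈ E, ¬ e.IsDiag) (hxy : s(x, y) ∈ E) :
    (SimpleGraph.fromEdgeSet (E : Set (Sym2 V))).Adj x y := by
  rw [SimpleGraph.fromEdgeSet_adj]
  exact ⟨hxy, fun e => hE _ hxy (by rw [Sym2.mk_isDiag_iff]; exact e)⟩

/-- a path through a connected set -/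
theorem thru {K : Finset V} (hE : ∀ e ∈ E, ¬ e.IsDiag) (hK : ¬ Disc K E) {a c k1 k2 : V} (h1 : k1 ∈ K)
    (h2 : k2 ∈ K) (ha : a ∉ K) (hc : c ∉ K) (hac : a ≠ c) (ha1 : s(a, k1) ∈ E) (hc2 : s(k2, c) ∈ E) :
    ∃ r : (SimpleGraph.fromEdgeSet (E : Set (Sym2 V))).Walk a c, r.IsPath ∧
      (∀ v ∈ r.support, v = a ∨ v = c ∨ v ∈ K) ∧ k1 ∈ r.support := by
  obtain ⟨p, hp, hpK⟩ := H85TF.path_of_not_disc hK h2 h1
  have hq : (SimpleGraph.Walk.cons (adjE hE (by rw [Sym2.eq_swap]; exact hc2) : (SimpleGraph.fromEdgeSet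
      (E : Set (Sym2 V))).Adj c k2) p).IsPath := by
    rw [SimpleGraph.Walk.cons_isPath_iff]
    exact ⟨hp, fun h => hc (hpK c h)⟩
  refine ⟨SimpleGraph.Walk.cons (adjE hE ha1) (SimpleGraph.Walk.cons (adjE hE (by rw [Sym2.eq_swap]; exact hc2) :
    (SimpleGraph.fromEdgeSet (E : Set (Sym2 V))).Adj c k2) p).reverse, ?_, ?_, ?_⟩
  · rw [SimpleGraph.Walk.cons_isPath_iff]
    refine ⟨hq.reverse, ?_⟩
    rw [SimpleGraph.Walk.support_reverse, List.mem_reverse, SimpleGraph.Walk.support_cons, List.mem_cons]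
    rintro (h | h)
    · exact hac h
    · exact ha (hpK a h)
  · intro v hv
    rw [SimpleGraph.Walk.support_cons, List.mem_cons, SimpleGraph.Walk.support_reverse, List.mem_reverse,
      SimpleGraph.Walk.support_cons, List.mem_cons] at hv
    rcases hv with h | h | h
    · exact Or.inl h
    · exact Or.inr (Or.inl h)
    · exact Or.inr (Or.inr (hpK v h))
  · rw [SimpleGraph.Walk.support_cons, List.mem_cons]
    exact Or.inr (SimpleGraph.Walk.start_mem_support _)

end

section

variable {V : Type*} [Fintype V] [DecidableEq V] {E F : Finset (Sym2 V)} {S : Finset V}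

/-- a cycle gives `OneCyc` -/
theorem CycOn.one (h : CycOn E F S) {A : Finset V} (hA : A ⊆ S) : H47G5.OneCyc E A := by
  refine ⟨F, h.sub, ⟨fun v => ?_, ?_⟩, fun v hv => h.two v (hA hv)⟩
  · by_cases hv : v ∈ S
    · exact Or.inr (h.two v hv)
    · exact Or.inl (h.zero v hv)
  · intro T hT x hx hx0 y hy0
    have hxS : x ∈ S := by
      by_contra h1
      exact hx0 (h.zero x h1)
    have hyS : y ∈ S := by
      by_contra h1
      exact hy0 (h.zero y h1)
    have h1 := h.closed (T := T ∩ S) ⟨x, mem_inter.2 ⟨hx, hxS⟩⟩ inter_subset_right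
      (fun a ha b hab => mem_inter.2 ⟨hT a (mem_inter.1 ha).1 b hab, h.right hab⟩)
    exact (mem_inter.1 (h1 hyS)).1

theorem CycOn.cov (h : CycOn E F S) (hE : ∀ e ∈ E, ¬ e.IsDiag) {A : Finset V} (hA : A ⊆ S) (h5 : 5 ≤ S.card) :
    H8F.Cov5 E A := H8F.cov5_sub hA (h.cov5 hE h5)

/-- lengthening a path at both ends -/
theorem ends {E : Finset (Sym2 V)} (hE : ∀ e ∈ E, ¬ e.IsDiag) {y x : V}
    (r : (SimpleGraph.fromEdgeSet (E : Set (Sym2 V))).Walk y x) (hr : r.IsPath) {b c : V} (hb : b ∉ r.support)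
    (hc : c ∉ r.support) (hbc : b ≠ c) (h1 : s(b, y) ∈ E) (h2 : s(x, c) ∈ E) :
    ∃ q : (SimpleGraph.fromEdgeSet (E : Set (Sym2 V))).Walk b c, q.IsPath ∧
      ∀ v, v ∈ q.support ↔ (v = b ∨ v = c ∨ v ∈ r.support) := by
  have hq : (SimpleGraph.Walk.cons (adjE hE (by rw [Sym2.eq_swap]; exact h2) : (SimpleGraph.fromEdgeSet
      (E : Set (Sym2 V))).Adj c x) r.reverse).IsPath := by
    rw [SimpleGraph.Walk.cons_isPath_iff]
    refine ⟨hr.reverse, ?_⟩
    rw [SimpleGraph.Walk.support_reverse, List.mem_reverse]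
    exact hc
  refine ⟨SimpleGraph.Walk.cons (adjE hE h1) (SimpleGraph.Walk.cons (adjE hE (by rw [Sym2.eq_swap]; exact h2) :
    (SimpleGraph.fromEdgeSet (E : Set (Sym2 V))).Adj c x) r.reverse).reverse, ?_, ?_⟩
  · rw [SimpleGraph.Walk.cons_isPath_iff]
    refine ⟨hq.reverse, ?_⟩
    rw [SimpleGraph.Walk.support_reverse, List.mem_reverse, SimpleGraph.Walk.support_cons, List.mem_cons,
      SimpleGraph.Walk.support_reverse, List.mem_reverse]
    rintro (h | h)
    · exact hbc h
    · exact hb h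
  · intro v
    rw [SimpleGraph.Walk.support_cons, List.mem_cons, SimpleGraph.Walk.support_reverse, List.mem_reverse,
      SimpleGraph.Walk.support_cons, List.mem_cons, SimpleGraph.Walk.support_reverse, List.mem_reverse]

theorem both {E F2 : Finset (Sym2 V)} {x b c : V} (hN : ∀ w, s(x, w) ∈ E → w = b ∨ w = c) (hF : F2 ⊆ E)
    (h : H85TF.dg F2 x = 2) : s(x, b) ∈ F2 ∧ s(x, c) ∈ F2 := by
  obtain ⟨w1, w2, hw, h1, h2⟩ := H40T.two_nb (E := F2) (w := x) h
  rcases hN w1 (hF h1) with rfl | rfl <;> rcases hN w2 (hF h2) with rfl | rfl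
  · exact absurd rfl hw
  · exact ⟨h1, h2⟩
  · exact ⟨h2, h1⟩
  · exact absurd rfl hw

/-- **The core.** -/
theorem keyX {Y A : Finset V} {b d u : V} (hT : TCY E Y) (h : CycOn E F S) (hSY : S ⊆ Y)
    (h4 : S.card ≤ 4) (hA : A ⊆ S) (hb : b ∈ S) (hd : d ∉ S) (hu : u ∈ Y) (huS : u ∉ S) (hbu : s(b, u) ∈ E)
    (hn : ¬ H8F.Cov5 E (insert b A)) (hc : H47G5.Cv E (insert d A)) :
    H47G5.OneCyc E (insert u (insert b A)) := by
  classical
  have hE := hT.loop
  have sw : ∀ {C : Finset (Sym2 V)} {a b : V}, s(a, b) ∈ C → s(b, a) ∈ C := fun hab => by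
    rw [Sym2.eq_swap]; exact hab
  have ne : ∀ {a b : V}, s(a, b) ∈ E → a ≠ b := fun hab e => hE _ hab (by rw [Sym2.mk_isDiag_iff]; exact e)
  have hbA : insert b A ⊆ S := insert_subset hb hA
  obtain ⟨x1, x2, hx12, hx1, hx2⟩ := H40T.two_nb (E := F) (w := b) (h.two b hb)
  have hx1S := h.right hx1
  have hx2S := h.right hx2
  have hbx1 := ne (h.sub hx1)
  have hbx2 := ne (h.sub hx2)
  have case1 : ∀ (K : Finset V), K ⊆ Y \ S → ¬ Disc K E → u ∈ K → ∀ k ∈ K, ∀ c, s(b, c) ∈ F → s(k, c) ∈ E →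
      H47G5.OneCyc E (insert u (insert b A)) := by
    intro K hK hKd huK k hk c hbc hkc
    have hKS : ∀ a ∈ K, a ∈ Y ∧ a ∉ S := fun a ha => mem_sdiff.1 (hK ha)
    have hcS := h.right hbc
    obtain ⟨r, hr, hrs, hur⟩ := thru hE hKd huK hk (fun h1 => (hKS b h1).2 hb) (fun h1 => (hKS c h1).2 hcS)
      (ne (h.sub hbc)) hbu hkc
    have h1 := h.repl hE (a := c) (b := b) (sw hbc) r hr (fun v hv hvS => by
      rcases hrs v hv with h2 | h2 | h2
      · exact Or.inr h2
      · exact Or.inl h2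
      · exact absurd hvS (hKS v h2).2) hur huS
    exact h1.one (insert_subset (mem_union_right _ (List.mem_toFinset.2 hur)) (hbA.trans subset_union_left))
  obtain ⟨K, hK, huK, hKc, hKd⟩ := exists_comp_of (E := E) (mem_sdiff.2 ⟨hu, huS⟩)
  have hKS : ∀ a ∈ K, a ∈ Y ∧ a ∉ S := fun a ha => mem_sdiff.1 (hK ha)
  obtain ⟨c, hcS, hcb, k, hk, hkc⟩ := att_two hT hSY hx1S hbx1.symm hb hK ⟨u, huK⟩ hKc
  by_cases hbc : s(b, c) ∈ F
  · exact case1 K hK hKd huK k hk c hbc hkc
  have hcx1 : c ≠ x1 := fun e => hbc (e ▸ hx1)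
  have hcx2 : c ≠ x2 := fun e => hbc (e ▸ hx2)
  have hbK : b ∉ K := fun h1 => (hKS b h1).2 hb
  have hcK : c ∉ K := fun h1 => (hKS c h1).2 hcS
  have h4S : ({b, x1, x2, c} : Finset V) ⊆ S := by
    intro v hv
    simp only [mem_insert, mem_singleton] at hv
    rcases hv with rfl | rfl | rfl | rfl
    · exact hb
    · exact hx1S
    · exact hx2S
    · exact hcS
  have h4c : ({b, x1, x2, c} : Finset V).card = 4 := by
    rw [card_insert_of_notMem, card_insert_of_notMem, card_insert_of_notMem, card_singleton]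
    · rw [mem_singleton]; exact fun e => hcx2 e.symm
    · simp only [mem_insert, mem_singleton, not_or]
      exact ⟨hx12, fun e => hcx1 e.symm⟩
    · simp only [mem_insert, mem_singleton, not_or]
      exact ⟨hbx1, hbx2, hcb.symm⟩
  have hSe : S = {b, x1, x2, c} := (eq_of_subset_of_card_le h4S (by rw [h4c]; exact h4)).symm
  have hSc : S.card = 4 := by rw [hSe]; exact h4c
  have hS4 : ∀ v ∈ S, v = b ∨ v = x1 ∨ v = x2 ∨ v = c := by
    intro v hv
    rw [hSe] at hv
    simpa only [mem_insert, mem_singleton] using hv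
  -- the neighbours of `c` on the cycle
  obtain ⟨hcx1F, hcx2F⟩ : s(c, x1) ∈ F ∧ s(c, x2) ∈ F := by
    refine both (E := F) (x := c) (b := x1) (c := x2) (fun w hw => ?_) subset_rfl (h.two c hcS)
    rcases hS4 w (h.right hw) with rfl | rfl | rfl | rfl
    · exact absurd (sw hw) hbc
    · exact Or.inl rfl
    · exact Or.inr rfl
    · exact absurd rfl (ne (h.sub hw))
  obtain ⟨P, hP, hPs, huP⟩ := thru hE hKd huK hk hbK hcK hcb.symm hbu hkc
  have hub : u ≠ b := fun e => huS (e ▸ hb)
  have huc : u ≠ c := fun e => huS (e ▸ hcS)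
  have two : ∀ q : (SimpleGraph.fromEdgeSet (E : Set (Sym2 V))).Walk b c, q.IsPath →
      (∀ v ∈ q.support, v ∉ K) →
      CycOn E (P.edges.toFinset ∪ q.edges.toFinset) (P.support.toFinset ∪ q.support.toFinset) := by
    intro q hq hqK
    refine cyc_two hcb.symm P hP q hq (fun v hv hv' => ?_) huP hub huc
    rcases hPs v hv with h1 | h1 | h1
    · exact Or.inl h1
    · exact Or.inr h1
    · exact absurd h1 (hqK v hv')
  have bigF : ∀ q : (SimpleGraph.fromEdgeSet (E : Set (Sym2 V))).Walk b c, q.IsPath →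
      (∀ v ∈ q.support, v ∉ K) → (∀ v ∈ S, v ∈ q.support) → False := by
    intro q hq hqK hqS
    have hsub : insert u S ⊆ P.support.toFinset ∪ q.support.toFinset := insert_subset
      (mem_union_left _ (List.mem_toFinset.2 huP)) fun v hv => mem_union_right _ (List.mem_toFinset.2 (hqS v hv))
    refine hn ((two q hq hqK).cov hE (hbA.trans ((subset_insert _ _).trans hsub)) ?_)
    have h1 := card_le_card hsub
    rw [card_insert_of_notMem huS, hSc] at h1
    exact h1
  have alpha : ∀ x x', s(b, x) ∈ F → s(c, x) ∈ F → (∀ v ∈ S, v = b ∨ v = x ∨ v = x' ∨ v = c) → x' ∉ A →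
      H47G5.OneCyc E (insert u (insert b A)) := by
    intro x x' hbx hcx hS hx'
    obtain ⟨q, hq, hqs⟩ := ends hE (SimpleGraph.Walk.nil : (SimpleGraph.fromEdgeSet (E : Set (Sym2 V))).Walk x x)
      SimpleGraph.Walk.IsPath.nil (b := b) (c := c) (by
        rw [SimpleGraph.Walk.support_nil, List.mem_singleton]; exact ne (h.sub hbx)) (by
        rw [SimpleGraph.Walk.support_nil, List.mem_singleton]; exact ne (h.sub hcx)) hcb.symm (h.sub hbx)
        (h.sub (sw hcx))
    have hqs' : ∀ v, v ∈ q.support ↔ (v = b ∨ v = c ∨ v = x) := by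
      intro v
      rw [hqs, SimpleGraph.Walk.support_nil, List.mem_singleton]
    refine (two q hq fun v hv => ?_).one ?_
    · rcases (hqs' v).1 hv with rfl | rfl | rfl
      · exact hbK
      · exact hcK
      · exact fun h1 => (hKS _ h1).2 (h.right hbx)
    · refine insert_subset (mem_union_left _ (List.mem_toFinset.2 huP)) (insert_subset
        (mem_union_right _ (List.mem_toFinset.2 ((hqs' b).2 (Or.inl rfl)))) fun v hv => ?_)
      refine mem_union_right _ (List.mem_toFinset.2 ((hqs' v).2 ?_))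
      rcases hS v (hA hv) with h1 | h1 | h1 | h1
      · exact Or.inl h1
      · exact Or.inr (Or.inr h1)
      · exact absurd (h1 ▸ hv) hx'
      · exact Or.inr (Or.inl h1)
  have beta : ∀ x x', x ≠ x' → s(b, x) ∈ F → s(b, x') ∈ F → s(c, x) ∈ F → s(c, x') ∈ F →
      (∀ v ∈ S, v = b ∨ v = x ∨ v = x' ∨ v = c) →
      H47G5.OneCyc E (insert u (insert b A)) ∨ ∀ w, s(x, w) ∈ E → w = b ∨ w = c := by
    intro x x' hxx hbx hbx' hcx hcx' hS
    by_contra hcon
    rw [not_or] at hcon
    obtain ⟨hgoal, hcon⟩ := hcon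
    push Not at hcon
    obtain ⟨w, hxw, hwb, hwc⟩ := hcon
    have hxS := h.right hbx
    have hx'S := h.right hbx'
    have hxK : x ∉ K := fun h1 => (hKS x h1).2 hxS
    have hx'K : x' ∉ K := fun h1 => (hKS x' h1).2 hx'S
    have hbx0 := ne (h.sub hbx)
    have hbx0' := ne (h.sub hbx')
    have hcx0 := ne (h.sub hcx)
    have hcx0' := ne (h.sub hcx')
    have hwY : w ∈ Y := hT.sub _ hxw w (Sym2.mem_mk_right _ _)
    by_cases hwS : w ∈ S
    · have hw : w = x' := by
        rcases hS w hwS with h1 | h1 | h1 | h1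
        · exact absurd h1 hwb
        · exact absurd h1.symm (ne hxw)
        · exact h1
        · exact absurd h1 hwc
      rw [hw] at hxw
      have hr : (SimpleGraph.Walk.cons (adjE hE hxw) SimpleGraph.Walk.nil :
          (SimpleGraph.fromEdgeSet (E : Set (Sym2 V))).Walk x x').IsPath := by
        rw [SimpleGraph.Walk.cons_isPath_iff]
        refine ⟨SimpleGraph.Walk.IsPath.nil, ?_⟩
        rw [SimpleGraph.Walk.support_nil, List.mem_singleton]
        exact hxx
      have hrs : ∀ v, v ∈ (SimpleGraph.Walk.cons (adjE hE hxw) SimpleGraph.Walk.nil :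
          (SimpleGraph.fromEdgeSet (E : Set (Sym2 V))).Walk x x').support ↔ (v = x ∨ v = x') := by
        intro v
        rw [SimpleGraph.Walk.support_cons, List.mem_cons, SimpleGraph.Walk.support_nil, List.mem_singleton]
      obtain ⟨q, hq, hqs⟩ := ends hE _ hr (b := b) (c := c) (by
        rw [hrs, not_or]; exact ⟨hbx0, hbx0'⟩) (by rw [hrs, not_or]; exact ⟨hcx0, hcx0'⟩) hcb.symm (h.sub hbx)
        (h.sub (sw hcx'))
      refine bigF q hq (fun v hv => ?_) (fun v hv => ?_)
      · rw [hqs, hrs] at hv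
        rcases hv with rfl | rfl | rfl | rfl
        · exact hbK
        · exact hcK
        · exact hxK
        · exact hx'K
      · rw [hqs, hrs]
        rcases hS v hv with h1 | h1 | h1 | h1
        · exact Or.inl h1
        · exact Or.inr (Or.inr (Or.inl h1))
        · exact Or.inr (Or.inr (Or.inr h1))
        · exact Or.inr (Or.inl h1)
    · obtain ⟨K', hK', hwK', hKc', hKd'⟩ := exists_comp_of (E := E) (mem_sdiff.2 ⟨hwY, hwS⟩)
      have hKS' : ∀ a ∈ K', a ∈ Y ∧ a ∉ S := fun a ha => mem_sdiff.1 (hK' ha)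
      by_cases huK' : u ∈ K'
      · exact hgoal (case1 K' hK' hKd' huK' w hwK' x hbx (sw hxw))
      have hKK : ∀ v ∈ K', v ∉ K := by
        intro v hv hvK
        refine hKd ⟨K ∩ K', K \ K', ⟨v, mem_inter.2 ⟨hvK, hv⟩⟩, ⟨u, mem_sdiff.2 ⟨huK, huK'⟩⟩, ?_, ?_, ?_⟩
        · rw [disjoint_left]
          intro z hz hz'
          exact (mem_sdiff.1 hz').2 (mem_inter.1 hz).2
        · ext z
          rw [mem_union, mem_inter, mem_sdiff]
          constructor
          · rintro (h1 | h1)
            · exact h1.1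
            · exact h1.1
          · intro hz
            by_cases hz' : z ∈ K'
            · exact Or.inl ⟨hz, hz'⟩
            · exact Or.inr ⟨hz, hz'⟩
        · intro y hy z hz
          exact hKc' y (mem_inter.1 hy).2 z (hK (mem_sdiff.1 hz).1) (mem_sdiff.1 hz).2
      have hxK' : x ∉ K' := fun h1 => (hKS' x h1).2 hxS
      obtain ⟨c', hc'S, hc'x, k', hk', hkc'⟩ := att_two hT hSY (b := x) hb hbx0 hxS hK' ⟨w, hwK'⟩ hKc'
      have hc'K' : c' ∉ K' := fun h1 => (hKS' c' h1).2 hc'S
      have adjc : s(c', x) ∈ F → False := by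
        intro hF
        obtain ⟨r, hr, hrs, hwr⟩ := thru hE hKd' hwK' hk' hxK' hc'K' hc'x.symm hxw hkc'
        have h1 := h.repl hE (a := c') (b := x) hF r hr (fun v hv hvS => by
          rcases hrs v hv with h2 | h2 | h2
          · exact Or.inr h2
          · exact Or.inl h2
          · exact absurd hvS (hKS' v h2).2) hwr hwS
        have hsub : insert w S ⊆ S ∪ r.support.toFinset := insert_subset
          (mem_union_right _ (List.mem_toFinset.2 hwr)) subset_union_left
        refine hn (h1.cov hE (hbA.trans subset_union_left) ?_)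
        have h2 := card_le_card hsub
        rw [card_insert_of_notMem hwS, hSc] at h2
        exact h2
      rcases hS c' hc'S with h1 | h1 | h1 | h1
      · exact adjc (by rw [h1]; exact hbx)
      · exact hc'x h1
      · rw [h1] at hkc' hc'K'
        obtain ⟨r, hr, hrs, -⟩ := thru hE hKd' hk' hwK' hc'K' hxK' hxx.symm (sw hkc') (sw hxw)
        obtain ⟨q, hq, hqs⟩ := ends hE r hr (b := b) (c := c) (by
          intro h2
          rcases hrs b h2 with h3 | h3 | h3
          · exact hbx0' h3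
          · exact hbx0 h3
          · exact (hKS' b h3).2 hb) (by
          intro h2
          rcases hrs c h2 with h3 | h3 | h3
          · exact hcx0' h3
          · exact hcx0 h3
          · exact (hKS' c h3).2 hcS) hcb.symm (h.sub hbx') (h.sub (sw hcx))
        refine bigF q hq (fun v hv => ?_) (fun v hv => ?_)
        · rw [hqs] at hv
          rcases hv with rfl | rfl | hv
          · exact hbK
          · exact hcK
          · rcases hrs v hv with rfl | rfl | h2
            · exact hx'K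
            · exact hxK
            · exact hKK v h2
        · rw [hqs]
          rcases hS v hv with h2 | h2 | h2 | h2
          · exact Or.inl h2
          · exact Or.inr (Or.inr (h2 ▸ r.end_mem_support))
          · exact Or.inr (Or.inr (h2 ▸ r.start_mem_support))
          · exact Or.inr (Or.inl h2)
      · exact adjc (by rw [h1]; exact hcx)
  have hS4' : ∀ v ∈ S, v = b ∨ v = x2 ∨ v = x1 ∨ v = c := by
    intro v hv
    rcases hS4 v hv with h1 | h1 | h1 | h1
    · exact Or.inl h1
    · exact Or.inr (Or.inr (Or.inl h1))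
    · exact Or.inr (Or.inl h1)
    · exact Or.inr (Or.inr (Or.inr h1))
  by_cases hx2A : x2 ∈ A
  swap
  · exact alpha x1 x2 hx1 hcx1F hS4 hx2A
  by_cases hx1A : x1 ∈ A
  swap
  · exact alpha x2 x1 hx2 hcx2F hS4' hx1A
  rcases beta x1 x2 hx12 hx1 hx2 hcx1F hcx2F hS4 with hg | hN1
  · exact hg
  rcases beta x2 x1 hx12.symm hx2 hx1 hcx2F hcx1F hS4' with hg | hN2
  · exact hg
  exfalso
  rcases hc with ⟨F2, g1, g2, g3, g5, g6⟩ | ⟨F2, g1, ⟨g2, g3⟩, g4⟩
  · obtain ⟨e1, e2⟩ := both hN1 g1 (g6 x1 (mem_insert_of_mem hx1A))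
    obtain ⟨e3, e4⟩ := both hN2 g1 (g6 x2 (mem_insert_of_mem hx2A))
    exact g5 b x1 c x2 hcb.symm hx12 (sw e1) e2 (sw e4) e3
  · obtain ⟨e1, e2⟩ := both hN1 g1 (g4 x1 (mem_insert_of_mem hx1A))
    obtain ⟨e3, e4⟩ := both hN2 g1 (g4 x2 (mem_insert_of_mem hx2A))
    have dg0 : ∀ {x y : V}, s(x, y) ∈ F2 → H85TF.dg F2 x = 2 := by
      intro x y hxy
      rcases g2 x with h1 | h1
      · exfalso
        unfold H85TF.dg at h1
        rw [card_eq_zero] at h1
        have h2 : s(x, y) ∈ F2.filter fun e => x ∈ e := mem_filter.2 ⟨hxy, Sym2.mem_mk_left _ _⟩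
        rw [h1] at h2
        exact notMem_empty _ h2
      · exact h1
    have hd2 : H85TF.dg F2 d = 2 := g4 d (mem_insert_self _ _)
    have h1 := g3 {b, x1, x2, c} (fun a ha w hw => ?_) x1 (by simp) (by rw [dg0 e1]; decide) d
      (by rw [hd2]; decide)
    · exact hd (h4S h1)
    · simp only [mem_insert, mem_singleton] at ha ⊢
      rcases ha with rfl | rfl | rfl | rfl
      · rcases nb_two (dg0 (sw e1)) (sw e1) (sw e3) hx12 hw with h2 | h2
        · exact Or.inr (Or.inl h2)
        · exact Or.inr (Or.inr (Or.inl h2))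
      · rcases nb_two (dg0 e1) e1 e2 hcb.symm hw with h2 | h2
        · exact Or.inl h2
        · exact Or.inr (Or.inr (Or.inr h2))
      · rcases nb_two (dg0 e3) e3 e4 hcb.symm hw with h2 | h2
        · exact Or.inl h2
        · exact Or.inr (Or.inr (Or.inr h2))
      · rcases nb_two (dg0 (sw e2)) (sw e2) (sw e4) hx12 hw with h2 | h2
        · exact Or.inr (Or.inl h2)
        · exact Or.inr (Or.inr (Or.inl h2))

end

end H40B5
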